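import Pool.Agent.H295R3.D6.Final

set_option autoImplicit false

namespace Pool.Agent.Results.MP_70e45f_nt.LinearDensity

/-- `F k` is the set of the positive integers `m` for which there are `1 ≤ r ≤ k` and integers
`m = a 1 > a 2 > ⋯ > a r ≥ 1` such that `(a 1)! (a 2)! ⋯ (a r)!` is a perfect square. -/
def F (k : ℕ) : Set ℕ := {m | ∃ r : ℕ, 1 ≤ r ∧ r ≤ k ∧ ∃ a : ℕ → ℕ, a 1 = m ∧
  (∀ i j, 1 ≤ i → i < j → j ≤ r → a j < a i) ∧ (∀ i, 1 ≤ i → i ≤ r → 1 ≤ a i) ∧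
  IsSquare (∏ i ∈ Finset.Icc 1 r, (a i).factorial)}

/-- `D k = F k \ F (k - 1)`. -/
def D (k : ℕ) : Set ℕ := F k \ F (k - 1)

/-- Erdős and Graham (1976): there is `c > 0` with `D_6(n) > c n` for all large `n`. -/
theorem result : ∃ c : ℝ, 0 < c ∧ ∃ n₀ : ℕ, ∀ n : ℕ, n₀ ≤ n →
    c * n < (({m : ℕ | m ∈ D 6 ∧ m ≤ n}.ncard : ℕ) : ℝ) := by
  obtain ⟨c, hc, h⟩ := Pool.Agent.H295R3.D6.final
  obtain ⟨n₀, hn₀⟩ := Filter.eventually_atTop.1 h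
  refine ⟨c, hc, n₀, fun n hn => ?_⟩
  have e : {m : ℕ | m ∈ D 6 ∧ m ≤ n} =
      (Pool.Agent.H295R3.D6.F 6 \ Pool.Agent.H295R3.D6.F 5) ∩ Set.Icc 1 n := by
    ext m
    constructor
    · rintro ⟨⟨h1, h2⟩, h3⟩
      refine ⟨⟨h1, h2⟩, ?_, h3⟩
      obtain ⟨r, hr1, _, a, ha1, _, ha2, _⟩ := h1
      rw [← ha1]
      exact ha2 1 le_rfl hr1
    · rintro ⟨⟨h1, h2⟩, h3⟩
      exact ⟨⟨h1, h2⟩, h3.2⟩
  rw [e]
  exact hn₀ n hn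

end Pool.Agent.Results.MP_70e45f_nt.LinearDensity
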